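import Pool.Agent.U19.UB.Model
import Pool.Agent.U19.UB.Sanity
import Pool.Agent.Helper292.ForceCH
import Pool.Agent.Results.MP_17aaef_lc.UlamBanach

/-!
# Ulam's question on abstract projective sets is independent of ZFC

`Q1 E` is the question for the set `E` of cardinality `𝔠` (defined, with `IsProjective` and
`InSigma`, in the starting file `UlamBanach`, where it is shown to be equivalent to the base
property: every family of at most `𝔠` subsets of `E` is contained in a countably generated
`σ`-algebra).

* The continuum hypothesis implies `Q1 E`, and it is forced by some forcing notion.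
* Some forcing notion (adding `2 ^ 𝔠` Cohen reals) forces that a set `E` has the cardinality of the
  continuum and that there are subsets `F e` (`e : E`) of `E` which are not contained in any
  countably generated `σ`-algebra.

The forcing languages are those of `Pool.Agent.Helper292.ForceCH` and of
`Pool.Agent.Helper669.Forcing`: a sentence is the set of the conditions which force it, `fnot`,
`fand`, `fall` are the primitive connectives and `fimp`, `fex` are defined from them classically; a
name for a subset of a ground model set `X` is a map sending `x : X` to a set of conditions, and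
`meets N` says that the generic filter meets `N`. The sentences `SizeContN P E` and `NoBaseN P E`
are the translations of the propositions `SizeCont E` and `NoBase E` (all in
`Pool.Agent.U19.UB.Defs`); quantifiers over families of subsets of `E` become quantifiers over names
`S : (E → Set P) → Set P`.
-/

set_option autoImplicit false

namespace Pool.Agent.Results.MP_17aaef_lc.Independence

open Cardinal Set MeasurableSpace Pool.Agent.U19.UB
open scoped MeasureTheory

/-- `InSig` is membership in the generated `σ`-algebra. -/
theorem inSig_iff {E : Type} (B : ℕ → Set E) (T : Set E) :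
    InSig (fun n x => x ∈ B n) (fun x => x ∈ T) ↔ UlamBanach.InSigma B T := by
  constructor
  · intro h
    refine h (fun T => MeasurableSet[generateFrom (range B)] {x | T x}) ⟨fun n => ?_, ?_, ?_⟩
    · exact measurableSet_generateFrom ⟨n, rfl⟩
    · intro T hT
      exact @MeasurableSet.compl _ _ (generateFrom (range B)) hT
    · intro T hT
      have h1 := @MeasurableSet.iUnion _ _ (generateFrom (range B)) _ _ hT
      have h2 : {x | ∃ n, T n x} = ⋃ n, {x | T n x} := by ext x; simp
      show MeasurableSet[generateFrom (range B)] {x | ∃ n, T n x}
      rw [h2]; exact h1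
  · intro h S hS
    have hS1 : ∀ n, S (fun x => x ∈ B n) := hS.1
    have huniv : S (fun _ => True) := by
      have h1 := hS.2.2 (fun n x => if n = 0 then x ∈ B 0 else ¬ x ∈ B 0) (fun n => by
        by_cases hn : n = 0
        · simpa [hn] using hS1 0
        · simpa [hn] using hS.2.1 _ (hS1 0))
      have h2 : (fun x => ∃ n : ℕ, if n = 0 then x ∈ B 0 else ¬ x ∈ B 0) = fun _ => True := by
        funext x
        refine propext ⟨fun _ => trivial, fun _ => ?_⟩
        by_cases hx : x ∈ B 0
        · exact ⟨0, by simp [hx]⟩
        · exact ⟨1, by simp [hx]⟩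
      rwa [h2] at h1
    have key : ∀ T : Set E, GenerateMeasurable (range B) T → S (fun x => x ∈ T) := by
      intro T hT
      induction hT with
      | basic T hT =>
        obtain ⟨n, rfl⟩ := hT
        exact hS1 n
      | empty =>
        have := hS.2.1 _ huniv
        simpa using this
      | compl T _ ih => exact hS.2.1 _ ih
      | iUnion T _ ih =>
        have h1 := hS.2.2 (fun n x => x ∈ T n) ih
        have h2 : (fun x => x ∈ ⋃ n, T n) = fun x => ∃ n, x ∈ T n := by
          funext x; simp
        rw [h2]; exact h1
    exact key T h

theorem noBase_iff {E : Type} (hE : #E = 𝔠) : UlamBanach.DenumerableBase E ↔ ¬ NoBase E := by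
  constructor
  · rintro h ⟨F, hF⟩
    obtain ⟨B, hB⟩ := h (range fun e => {x | F e x}) (mk_range_le.trans hE.le)
    obtain ⟨e, he⟩ := hF fun n x => x ∈ B n
    exact he ((inSig_iff B _).2 (hB _ ⟨e, rfl⟩))
  · intro h F hF
    by_contra hcon
    push Not at hcon
    apply h
    rcases F.eq_empty_or_nonempty with rfl | hne
    · obtain ⟨T, hT, -⟩ := hcon fun _ => ∅
      exact absurd hT (notMem_empty _)
    · have : Nonempty F := hne.to_subtype
      obtain ⟨g, hg⟩ : ∃ g : E → F, Function.Surjective g := by
        obtain ⟨f⟩ : #F ≤ #E := hF.trans hE.ge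
        exact ⟨Function.invFun f, Function.invFun_surjective f.injective⟩
      refine ⟨fun e x => x ∈ (g e).1, fun B => ?_⟩
      obtain ⟨T, hT, hTB⟩ := hcon fun n => {x | B n x}
      obtain ⟨e, he⟩ := hg ⟨T, hT⟩
      refine ⟨e, fun h1 => hTB ?_⟩
      have h2 : InSig B (fun x => x ∈ (g e).1) := h1
      rw [he] at h2
      exact (inSig_iff (fun n => {x | B n x}) T).1 h2

/-- **Q1 is independent of ZFC.** (1) `SizeCont E` says that `E` has the cardinality of the
continuum, and for these sets the positive answer `Q1 E` is equivalent to the negation of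
`NoBase E`. (2) The continuum hypothesis implies the positive answer, and some forcing notion forces
that `ω₁` is preserved and that the continuum hypothesis holds. (3) For some forcing notion `P` and
some set `E`, every condition forces that all cardinals of the ground model are cardinals, that `ω₁`
is preserved, that `E` has the cardinality of the continuum and that `NoBase E` holds, that is, the
negative answer. (4) For the trivial forcing notion the sentences used in (3) are `SizeCont E` and
`NoBase E`. -/
theorem result :
    (∀ E : Type, (SizeCont E ↔ #E = 𝔠) ∧ (#E = 𝔠 → (UlamBanach.Q1 E ↔ ¬ NoBase E))) ∧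
    (((𝔠 : Cardinal.{0}) = ℵ₁ → ∀ E : Type, #E = 𝔠 → UlamBanach.Q1 E) ∧
      ∃ (P : Type) (_ : Preorder P), Nonempty P ∧ ∀ p : P,
        p ∈ Helper292.ForceCH.OmegaOnePreserved P ∧ p ∈ Helper292.ForceCH.CHHolds P) ∧
    (∃ (P : Type) (_ : Preorder P) (E : Type), Nonempty P ∧ ∀ p : P,
      p ∈ Helper669.Forcing.CardinalsPreserved.{0, 0} P ∧ p ∈ W684.FM.OmegaOnePreserved P ∧
        p ∈ SizeContN P E ∧ p ∈ NoBaseN P E) ∧
    ∀ E : Type, (() ∈ SizeContN Unit E ↔ SizeCont E) ∧ (() ∈ NoBaseN Unit E ↔ NoBase E) := by
  refine ⟨fun E => ⟨sizeCont_iff E, fun hE => ?_⟩, ⟨fun h E hE => ?_, ?_⟩,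
    exists_forcing_noBase, fun E => ⟨sizeContN_unit, noBaseN_unit⟩⟩
  · exact (UlamBanach.result E hE).1.trans (noBase_iff hE)
  · exact (UlamBanach.result E hE).2.2.1 h
  · obtain ⟨P, i, h1, h2⟩ := Helper292.ForceCH.exists_forcing
    exact ⟨P, i, h1, fun p => ⟨(h2 p).1, (h2 p).2.2⟩⟩

end Pool.Agent.Results.MP_17aaef_lc.Independence
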